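import Pool.Agent.NTW.StmtsD

/-! Squad NTW (MP_e54c4c_gt), row NAL (helper55): near everywhere. -/

set_option autoImplicit false

open Matrix Filter Topology

noncomputable section

namespace Pool.Agent.NTW.H55

open Pool.Agent.PFS Pool.Agent.PFJ Pool.Agent.NTS Pool.Agent.NTW

theorem nal (eiw : EiwStmt) : NalStmt := by
  intro n C Γ K c τ hD w w' hw hw' hN i
  obtain ⟨hext, hcl, hne⟩ := (eiw n C Γ K c τ hD w hw).2.2.1 i
  have hC : PCone C := hD.toCC.toPCone
  have hwcl : ∀ j, w j ∈ closure C := fun j => ((eiw n C Γ K c τ hD w hw).2.2.1 j).2.1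
  -- the points on the ray
  obtain ⟨t, ht⟩ : ∃ t : ℕ → Fin K → ℝ, t = fun (N : ℕ) j => if j = i then (N : ℝ) else 0 :=
    ⟨_, rfl⟩
  have hi : ∀ N, t N i = N := fun N => by rw [ht]; exact if_pos rfl
  have hj : ∀ N j, j ≠ i → t N j = 0 := fun N j h => by rw [ht]; exact if_neg h
  choose q hqW hq1 hq2 using fun N => hN (t N)
  have hxe : ∀ N : ℕ, Real.exp (-(N : ℝ)) • xt w (t N) =
      w i + Real.exp (-(N : ℝ)) • ∑ j ∈ Finset.univ.erase i, w j := by
    intro N
    unfold xt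
    rw [← Finset.add_sum_erase _ _ (Finset.mem_univ i), smul_add, smul_smul, hi, ← Real.exp_add,
      neg_add_cancel, Real.exp_zero, one_smul]
    congr 2
    refine Finset.sum_congr rfl fun j hjm => ?_
    rw [hj N j (Finset.ne_of_mem_erase hjm), Real.exp_zero, one_smul]
  have hexp : Tendsto (fun N : ℕ => Real.exp (-(N : ℝ))) atTop (𝓝 0) :=
    Real.tendsto_exp_neg_atTop_nhds_zero.comp tendsto_natCast_atTop_atTop
  have hx : Tendsto (fun N : ℕ => Real.exp (-(N : ℝ)) • xt w (t N)) atTop (𝓝 (w i)) := by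
    simp only [hxe]
    have := (tendsto_const_nhds (x := w i) (f := (atTop : Filter ℕ))).add
      (hexp.smul_const (∑ j ∈ Finset.univ.erase i, w j))
    rwa [zero_smul, add_zero] at this
  -- bounded
  obtain ⟨B, hB0, hB⟩ := hC.normal
  obtain ⟨R, hR⟩ := (hx.norm).bddAbove_range
  have hxcl : ∀ N, xt w (t N) ∈ closure C := fun N =>
    hC.cl_sum fun j _ => hC.cl_smul (hwcl j) (Real.exp_pos _).le
  have hqcl : ∀ N, q N ∈ closure C := fun N => hC.cl_of_le (hxcl N) (hq1 N)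
  have h1 : ∀ N : ℕ, Real.exp (-(N : ℝ)) • q N - Real.exp (-(N : ℝ)) • xt w (t N) ∈ closure C :=
    fun N => by
      rw [← smul_sub]
      exact hC.cl_smul (hq1 N) (Real.exp_pos _).le
  have h2 : ∀ N : ℕ, (2 : ℝ) • (Real.exp (-(N : ℝ)) • xt w (t N)) - Real.exp (-(N : ℝ)) • q N ∈
      closure C := fun N => by
    rw [smul_comm, ← smul_sub]
    exact hC.cl_smul (hq2 N) (Real.exp_pos _).le
  have hbd : ∀ N : ℕ, Real.exp (-(N : ℝ)) • q N ∈ Metric.closedBall (0 : V n) (B * (2 * R)) := by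
    intro N
    rw [mem_closedBall_zero_iff]
    refine (hB _ _ (hC.cl_smul (hqcl N) (Real.exp_pos _).le) (h2 N)).trans
      (mul_le_mul_of_nonneg_left ?_ hB0.le)
    rw [norm_smul, Real.norm_eq_abs, abs_of_pos (two_pos : (0 : ℝ) < 2)]
    exact mul_le_mul_of_nonneg_left (hR ⟨N, rfl⟩) two_pos.le
  obtain ⟨p, -, φ, hφ, hp⟩ := tendsto_subseq_of_bounded Metric.isBounded_closedBall hbd
  have hp' : Tendsto (fun m => Real.exp (-((φ m : ℕ) : ℝ)) • q (φ m)) atTop (𝓝 p) := hp
  have hx' : Tendsto (fun m => Real.exp (-((φ m : ℕ) : ℝ)) • xt w (t (φ m))) atTop (𝓝 (w i)) :=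
    hx.comp hφ.tendsto_atTop
  have hpW : p ∈ Ws C τ w' :=
    (Submodule.closed_of_finiteDimensional (Ws C τ w')).mem_of_tendsto hp'
      (Eventually.of_forall fun m => (Ws C τ w').smul_mem _ (hqW _))
  have hpcl : p ∈ closure C := isClosed_closure.mem_of_tendsto hp'
    (Eventually.of_forall fun m => hC.cl_smul (hqcl _) (Real.exp_pos _).le)
  have hp1 : p - w i ∈ closure C := isClosed_closure.mem_of_tendsto (hp'.sub hx')
    (Eventually.of_forall fun m => h1 _)
  have hp2 : (2 : ℝ) • w i - p ∈ closure C := isClosed_closure.mem_of_tendsto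
    ((hx'.const_smul (2 : ℝ)).sub hp') (Eventually.of_forall fun m => h2 _)
  obtain ⟨α, hα⟩ := hext p hpcl 2 hp2
  have hα0 : α ≠ 0 := by
    intro h0
    rw [h0, zero_smul] at hα
    rw [hα, zero_sub] at hp1
    exact hne (hC.salient _ hcl hp1)
  have hwi : w i = α⁻¹ • p := by rw [hα, smul_smul, inv_mul_cancel₀ hα0, one_smul]
  rw [hwi]
  exact (Ws C τ w').smul_mem _ hpW

end Pool.Agent.NTW.H55
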